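import Mathlib

/-!
# Numerical semigroups with exactly two incomparable elements in `E(S)`
-/

namespace Pool.Agent.Results.MP_a0aa5b_al.TwoIncomparable

open PowerSeries

/-- The minimal generators of `S`: the nonzero elements which are not a sum of two nonzero
elements. -/
def gens (S : AddSubmonoid ℕ) : Set ℕ :=
  {n | n ∈ S ∧ n ≠ 0 ∧ ∀ x ∈ S, ∀ y ∈ S, x + y = n → x = 0 ∨ y = 0}

/-- `x ≤_S y`, that is, `y - x ∈ S`. -/
def leS (S : AddSubmonoid ℕ) (x y : ℕ) : Prop := ∃ z ∈ S, x + z = y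

open Classical in
/-- The Hilbert series `∑_{s ∈ S} x^s`. -/
noncomputable def hilb (S : AddSubmonoid ℕ) : ℤ⟦X⟧ := PowerSeries.mk fun n => if n ∈ S then 1 else 0

theorem isUnit_factor (j : ℕ) : IsUnit (1 - X ^ (j + 1) : ℤ⟦X⟧) := by
  rw [PowerSeries.isUnit_iff_constantCoeff]
  simp

/-- The unit `1 - x^(j+1)` of `ℤ⟦x⟧`. -/
noncomputable def factor (j : ℕ) : ℤ⟦X⟧ˣ := (isUnit_factor j).unit

/-- `ε 1, ε 2, …` is the exponent sequence of `S`: `(1 - x) ∑_{s ∈ S} x^s = ∏_{j ≥ 1} (1 - x^j)^(ε j)`,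
that is, the two sides agree modulo `x^(N+1)` when the product is taken over `1 ≤ j ≤ N`. -/
def IsExponentSeq (S : AddSubmonoid ℕ) (ε : ℕ → ℤ) : Prop :=
  ∀ N m : ℕ, m ≤ N → coeff m ((1 - X) * hilb S) =
    coeff m ((∏ j ∈ Finset.range N, factor j ^ ε (j + 1) : ℤ⟦X⟧ˣ) : ℤ⟦X⟧)

/-- The set `E(S)`. -/
def ESet (S : AddSubmonoid ℕ) (ε : ℕ → ℤ) : Set ℕ := {d | 2 ≤ d ∧ ε d ≠ 0 ∧ d ∉ gens S}

/-- The map `φ : ℕ^e → S` attached to the minimal generators. -/
noncomputable def phi (S : AddSubmonoid ℕ) : (gens S →₀ ℕ) →+ ℕ :=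
  (Finsupp.linearCombination ℕ (fun n : gens S => (n : ℕ))).toAddMonoidHom

/-- `ρ` is a presentation of `S`: it generates the kernel congruence of `φ`. -/
def IsPresentation (S : AddSubmonoid ℕ) (ρ : Set ((gens S →₀ ℕ) × (gens S →₀ ℕ))) : Prop :=
  addConGen (fun u v => (u, v) ∈ ρ) = AddCon.ker (phi S)

/-- `S` is a complete intersection: it has a minimal presentation with `e - 1` elements, where `e`
is the number of minimal generators. -/
def IsCI (S : AddSubmonoid ℕ) : Prop :=
  ∃ ρ : Set ((gens S →₀ ℕ) × (gens S →₀ ℕ)), IsPresentation S ρ ∧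
    (∀ ρ' ⊂ ρ, ¬ IsPresentation S ρ') ∧ ρ.Finite ∧ ρ.ncard = (gens S).ncard - 1


/-! ### Generators -/

section gensec

variable {S : AddSubmonoid ℕ}

theorem gens_finite (hS : ((S : Set ℕ)ᶜ).Finite) : (gens S).Finite := by
  obtain ⟨N, hN⟩ := hS.bddAbove
  have hN' : ∀ n, N < n → n ∈ S := by
    intro n hn
    by_contra h
    exact absurd (hN h) (by omega)
  apply (Set.finite_Iic (2 * N + 2)).subset
  intro n hn
  by_contra hlt
  rw [Set.mem_Iic, not_le] at hlt
  rcases hn.2.2 (N + 1) (hN' _ (by omega)) (n - (N + 1)) (hN' _ (by omega)) (by omega) with h | h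
  · omega
  · omega

theorem phi_apply (u : gens S →₀ ℕ) : phi S u = u.sum fun n c => c * (n : ℕ) := by
  simp [phi, Finsupp.linearCombination_apply]

theorem phi_single (n : gens S) (c : ℕ) : phi S (Finsupp.single n c) = c * (n : ℕ) := by
  simp [phi]

theorem phi_mem (u : gens S →₀ ℕ) : phi S u ∈ S := by
  induction u using Finsupp.induction_linear with
  | zero => rw [map_zero]; exact S.zero_mem
  | add u v hu hv => rw [map_add]; exact S.add_mem hu hv
  | single n c => rw [phi_single, ← smul_eq_mul]; exact S.nsmul_mem n.2.1 c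

theorem exists_phi {s : ℕ} (hs : s ∈ S) : ∃ u, phi S u = s := by
  induction s using Nat.strong_induction_on with
  | _ s ih =>
    by_cases h0 : s = 0
    · exact ⟨0, by rw [map_zero, h0]⟩
    by_cases hg : s ∈ gens S
    · exact ⟨Finsupp.single ⟨s, hg⟩ 1, by rw [phi_single]; simp⟩
    · have : ∃ x ∈ S, ∃ y ∈ S, x + y = s ∧ x ≠ 0 ∧ y ≠ 0 := by
        by_contra hcon
        apply hg
        refine ⟨hs, h0, fun x hx y hy hxy => ?_⟩
        by_contra hn
        rw [not_or] at hn
        exact hcon ⟨x, hx, y, hy, hxy, hn.1, hn.2⟩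
      obtain ⟨x, hx, y, hy, hxy, hx0, hy0⟩ := this
      obtain ⟨u, hu⟩ := ih x (by omega) hx
      obtain ⟨v, hv⟩ := ih y (by omega) hy
      exact ⟨u + v, by rw [map_add, hu, hv, hxy]⟩

theorem gen_pos (n : gens S) : 0 < (n : ℕ) := Nat.pos_of_ne_zero n.2.2.1

theorem phi_eq_zero {u : gens S →₀ ℕ} (h : phi S u = 0) : u = 0 := by
  ext n
  by_contra hn
  rw [Finsupp.coe_zero, Pi.zero_apply] at hn
  have h1 : Finsupp.single n 1 ≤ u := by
    rw [Finsupp.single_le_iff]; omega
  obtain ⟨v, rfl⟩ := exists_add_of_le h1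
  rw [map_add, phi_single] at h
  have := gen_pos n
  omega

theorem exists_sub {u : gens S →₀ ℕ} {n : gens S} (hn : u n ≠ 0) :
    ∃ v, u = Finsupp.single n 1 + v := by
  have h1 : Finsupp.single n 1 ≤ u := by
    rw [Finsupp.single_le_iff]; omega
  exact exists_add_of_le h1

theorem phi_gen {u : gens S →₀ ℕ} {n : gens S} (h : phi S u = n) : u = Finsupp.single n 1 := by
  have hu : u ≠ 0 := by
    rintro rfl
    rw [map_zero] at h
    have := gen_pos n
    omega
  obtain ⟨m, hm⟩ : ∃ m, u m ≠ 0 := by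
    by_contra hcon
    push Not at hcon
    exact hu (Finsupp.ext hcon)
  obtain ⟨v, rfl⟩ := exists_sub hm
  rw [map_add, phi_single, one_mul] at h
  rcases n.2.2.2 m m.2.1 (phi S v) (phi_mem v) h with h1 | h1
  · exact absurd h1 (gen_pos m).ne'
  · have hv := phi_eq_zero h1
    subst hv
    rw [map_zero, add_zero] at h
    rw [add_zero, Subtype.ext h]

/-- the factorizations of `s` -/
def Zs (S : AddSubmonoid ℕ) (s : ℕ) : Set (gens S →₀ ℕ) := {u | phi S u = s}

theorem apply_le (u : gens S →₀ ℕ) (n : gens S) : u n ≤ phi S u := by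
  by_cases hn : u n = 0
  · rw [hn]; exact Nat.zero_le _
  · have h1 : Finsupp.single n (u n) ≤ u := by
      rw [Finsupp.single_le_iff]
    obtain ⟨v, hv⟩ := exists_add_of_le h1
    have h2 := congrArg (phi S) hv
    rw [map_add, phi_single] at h2
    rw [h2]
    have := gen_pos n
    nlinarith

theorem Zs_finite (hS : ((S : Set ℕ)ᶜ).Finite) (s : ℕ) : (Zs S s).Finite := by
  have := (gens_finite hS).to_subtype
  have := Fintype.ofFinite (gens S)
  have hfin : (Set.Iic (Finsupp.equivFunOnFinite.symm (fun _ : gens S => s))).Finite :=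
    Set.finite_Iic _
  apply hfin.subset
  intro u hu
  rw [Set.mem_Iic]
  intro n
  simp only [Finsupp.equivFunOnFinite_symm_apply_apply]
  exact (apply_le u n).trans_eq hu

/-- at least two factorizations -/
def Two (S : AddSubmonoid ℕ) (s : ℕ) : Prop := (Zs S s).Nontrivial

theorem two_add {s t : ℕ} (hs : Two S s) (ht : t ∈ S) : Two S (s + t) := by
  obtain ⟨u, hu, v, hv, huv⟩ := hs
  obtain ⟨w, hw⟩ := exists_phi ht
  refine ⟨u + w, ?_, v + w, ?_, fun h => huv (add_right_cancel h)⟩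
  · change phi S (u + w) = s + t
    rw [map_add, hw]; congr 1
  · change phi S (v + w) = s + t
    rw [map_add, hw]; congr 1

theorem two_mem {s : ℕ} (hs : Two S s) : s ∈ S := by
  obtain ⟨u, hu, _⟩ := hs
  exact hu ▸ phi_mem u

theorem two_mono {s t : ℕ} (hs : Two S s) (h : leS S s t) : Two S t := by
  obtain ⟨z, hz, rfl⟩ := h
  exact two_add hs hz

/-- distinct factorizations have disjoint supports -/
def DisjSupp (S : AddSubmonoid ℕ) (s : ℕ) : Prop :=
  ∀ u ∈ Zs S s, ∀ v ∈ Zs S s, ∀ n, u n ≠ 0 → v n ≠ 0 → u = v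

theorem disj_of_min {s : ℕ} (hmin : ∀ t, Two S t → leS S t s → t = s) : DisjSupp S s := by
  intro u hu v hv n hn hn'
  by_contra huv
  obtain ⟨u', rfl⟩ := exists_sub hn
  obtain ⟨v', rfl⟩ := exists_sub hn'
  have hu2 : (n : ℕ) + phi S u' = s := by
    have : phi S (Finsupp.single n 1 + u') = s := hu
    rwa [map_add, phi_single, one_mul] at this
  have hv2 : (n : ℕ) + phi S v' = s := by
    have : phi S (Finsupp.single n 1 + v') = s := hv
    rwa [map_add, phi_single, one_mul] at this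
  have h2 : Two S (phi S u') := by
    refine ⟨u', rfl, v', ?_, fun h => huv (by rw [h])⟩
    change phi S v' = phi S u'
    omega
  have h3 := hmin _ h2 ⟨n, n.2.1, by omega⟩
  have := gen_pos n
  omega

theorem exists_min {s : ℕ} (hs : Two S s) :
    ∃ t, Two S t ∧ leS S t s ∧ ∀ r, Two S r → leS S r t → r = t := by
  induction s using Nat.strong_induction_on with
  | _ s ih =>
    by_cases h : ∀ r, Two S r → leS S r s → r = s
    · exact ⟨s, hs, ⟨0, S.zero_mem, add_zero s⟩, h⟩
    · push Not at h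
      obtain ⟨r, hr, ⟨z, hz, hrz⟩, hne⟩ := h
      obtain ⟨t, ht1, ⟨z', hz', htz⟩, ht3⟩ := ih r (by omega) hr
      exact ⟨t, ht1, ⟨z' + z, S.add_mem hz' hz, by omega⟩, ht3⟩

end gensec


/-! ### The numerator -/

section numer

variable {S : AddSubmonoid ℕ} [Fintype (gens S)]

/-- the numerator of the Hilbert series -/
noncomputable def KK (S : AddSubmonoid ℕ) [Fintype (gens S)] : ℤ⟦X⟧ :=
  hilb S * ∏ i : gens S, (1 - X ^ (i : ℕ))

theorem coeff_hilb (s : ℕ) [Decidable (s ∈ S)] :
    coeff s (hilb S) = if s ∈ S then 1 else 0 := by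
  rw [hilb, coeff_mk]
  split_ifs <;> rfl

open Classical in
theorem coeff_hilb_mul (s m : ℕ) :
    coeff s (hilb S * X ^ m) = if leS S m s then 1 else 0 := by
  rw [coeff_mul_X_pow']
  by_cases hm : m ≤ s
  · rw [if_pos hm, coeff_hilb]
    by_cases h : s - m ∈ S
    · rw [if_pos h, if_pos ⟨s - m, h, by omega⟩]
    · rw [if_neg h, if_neg]
      rintro ⟨z, hz, hzs⟩
      apply h
      have : s - m = z := by omega
      rwa [this]
  · rw [if_neg hm, if_neg]
    rintro ⟨z, hz, hzs⟩
    omega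

theorem leS_sum_iff (s : ℕ) (A : Finset (gens S)) :
    leS S (∑ i ∈ A, (i : ℕ)) s ↔ ∃ z ∈ Zs S s, ∀ i ∈ A, z i ≠ 0 := by
  classical
  have hphi : phi S (∑ i ∈ A, Finsupp.single i 1) = ∑ i ∈ A, (i : ℕ) := by
    rw [map_sum]
    exact Finset.sum_congr rfl fun i _ => by rw [phi_single, one_mul]
  have happ : ∀ i, (∑ j ∈ A, Finsupp.single j 1 : gens S →₀ ℕ) i = if i ∈ A then 1 else 0 := by
    intro i
    rw [Finsupp.finsetSum_apply]
    simp [Finsupp.single_apply]
  constructor
  · rintro ⟨z, hz, h⟩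
    obtain ⟨u, rfl⟩ := exists_phi hz
    refine ⟨∑ i ∈ A, Finsupp.single i 1 + u, ?_, fun i hi => ?_⟩
    · change phi S _ = s
      rw [map_add, hphi, h]
    · rw [Finsupp.add_apply, happ, if_pos hi]
      omega
  · rintro ⟨z, hz, h⟩
    have hle : (∑ i ∈ A, Finsupp.single i 1 : gens S →₀ ℕ) ≤ z := by
      intro i
      rw [happ]
      split_ifs with hi
      · have := h i hi; omega
      · exact Nat.zero_le _
    obtain ⟨v, rfl⟩ := exists_add_of_le hle
    refine ⟨phi S v, phi_mem v, ?_⟩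
    have : phi S (∑ i ∈ A, Finsupp.single i 1 + v) = s := hz
    rw [map_add, hphi] at this
    exact this

open Classical in
theorem coeff_KK (s : ℕ) : coeff s (KK S) =
    ∑ A ∈ (Finset.univ : Finset (gens S)).powerset,
      (-1) ^ A.card * (if ∃ z ∈ Zs S s, ∀ i ∈ A, z i ≠ 0 then 1 else 0) := by
  have hprod : ∏ i : gens S, (1 - X ^ (i : ℕ) : ℤ⟦X⟧) =
      ∑ A ∈ (Finset.univ : Finset (gens S)).powerset,
        (-1) ^ A.card * X ^ (∑ i ∈ A, (i : ℕ)) := by
    have h1 : ∏ i : gens S, (1 - X ^ (i : ℕ) : ℤ⟦X⟧) =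
        ∏ i : gens S, (-X ^ (i : ℕ) + 1 : ℤ⟦X⟧) :=
      Finset.prod_congr rfl fun i _ => by ring
    rw [h1, Finset.prod_add]
    refine Finset.sum_congr rfl fun A _ => ?_
    rw [Finset.prod_const_one, mul_one, Finset.prod_neg, Finset.prod_pow_eq_pow_sum]
  rw [KK, hprod, Finset.mul_sum, map_sum]
  refine Finset.sum_congr rfl fun A _ => ?_
  rw [show hilb S * ((-1) ^ A.card * X ^ (∑ i ∈ A, (i : ℕ))) =
    C ((-1) ^ A.card) * (hilb S * X ^ (∑ i ∈ A, (i : ℕ))) by
      rw [map_pow, map_neg, map_one]; ring, coeff_C_mul, coeff_hilb_mul]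
  simp only [leS_sum_iff]

theorem coeff_KK_not_mem {s : ℕ} (hs : s ∉ S) : coeff s (KK S) = 0 := by
  classical
  rw [coeff_KK]
  apply Finset.sum_eq_zero
  intro A _
  rw [if_neg, mul_zero]
  rintro ⟨z, hz, _⟩
  exact hs (hz ▸ phi_mem z)

theorem coeff_KK_disj {s : ℕ} (hs : s ∈ S) (hs0 : s ≠ 0) (hd : DisjSupp S s)
    (hfin : (Zs S s).Finite) : coeff s (KK S) = 1 - ((Zs S s).ncard : ℤ) := by
  classical
  rw [coeff_KK]
  obtain ⟨Z, hZ⟩ : ∃ Z : Finset (gens S →₀ ℕ), (Z : Set (gens S →₀ ℕ)) = Zs S s :=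
    ⟨hfin.toFinset, hfin.coe_toFinset⟩
  have hmem : ∀ z, z ∈ Z ↔ z ∈ Zs S s := fun z => by rw [← hZ, Finset.mem_coe]
  obtain ⟨z0, hz0⟩ : ∃ z, z ∈ Z := by
    obtain ⟨u, hu⟩ := exists_phi hs
    exact ⟨u, (hmem u).2 hu⟩
  have hn : (Zs S s).ncard = Z.card := by rw [← hZ, Set.ncard_coe_finset]
  rw [hn]
  have key : ∀ A : Finset (gens S), (@ite ℤ (∃ z ∈ Zs S s, ∀ i ∈ A, z i ≠ 0)
      (Classical.propDecidable _) 1 0) =
      (∑ z ∈ Z, if A ⊆ z.support then (1 : ℤ) else 0) - (if A = ∅ then (Z.card : ℤ) - 1 else 0) := by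
    intro A
    by_cases hA : A = ∅
    · subst hA
      rw [if_pos ⟨z0, (hmem z0).1 hz0, by simp⟩]
      simp
    · rw [if_neg hA, sub_zero]
      obtain ⟨i, hi⟩ := Finset.nonempty_iff_ne_empty.2 hA
      by_cases hex : ∃ z ∈ Zs S s, ∀ i ∈ A, z i ≠ 0
      · rw [if_pos hex]
        obtain ⟨z1, hz1, hz1'⟩ := hex
        rw [Finset.sum_eq_single z1]
        · rw [if_pos]
          intro j hj
          exact Finsupp.mem_support_iff.2 (hz1' j hj)
        · intro z hz hzne
          rw [if_neg]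
          intro hsub
          exact hzne (hd z ((hmem z).1 hz) z1 hz1 i
            (Finsupp.mem_support_iff.1 (hsub hi)) (hz1' i hi))
        · intro h; exact absurd ((hmem z1).2 hz1) h
      · rw [if_neg hex]
        symm
        apply Finset.sum_eq_zero
        intro z hz
        rw [if_neg]
        intro hsub
        exact hex ⟨z, (hmem z).1 hz, fun j hj => Finsupp.mem_support_iff.1 (hsub hj)⟩
  simp only [key, mul_sub, Finset.sum_sub_distrib, Finset.mul_sum]
  rw [Finset.sum_comm]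
  have hz : ∀ z ∈ Z, ∑ A ∈ (Finset.univ : Finset (gens S)).powerset,
      (-1 : ℤ) ^ A.card * (if A ⊆ z.support then 1 else 0) = 0 := by
    intro z hz
    simp only [mul_ite, mul_one, mul_zero]
    rw [← Finset.sum_filter]
    have hf : (Finset.univ : Finset (gens S)).powerset.filter (fun A => A ⊆ z.support) =
        z.support.powerset := by
      ext A
      simp
    rw [hf]
    apply Finset.sum_powerset_neg_one_pow_card_of_nonempty
    rw [Finset.nonempty_iff_ne_empty]
    intro h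
    rw [Finsupp.support_eq_empty] at h
    apply hs0
    have h2 : phi S z = s := (hmem z).1 hz
    rw [← h2, h, map_zero]
  rw [Finset.sum_eq_zero hz]
  have h0 : ∑ A ∈ (Finset.univ : Finset (gens S)).powerset,
      (-1 : ℤ) ^ A.card * (if A = ∅ then (Z.card : ℤ) - 1 else 0) = (Z.card : ℤ) - 1 := by
    rw [Finset.sum_eq_single ∅]
    · simp
    · intro A _ hA
      rw [if_neg hA, mul_zero]
    · intro h; exact absurd (Finset.empty_mem_powerset _) h
  rw [h0]
  ring

theorem coeff_KK_unique {s : ℕ} (hs : s ∈ S) (hs0 : s ≠ 0) (ht : ¬ Two S s)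
    (hfin : (Zs S s).Finite) : coeff s (KK S) = 0 := by
  have hsub : (Zs S s).Subsingleton := Set.not_nontrivial_iff.1 ht
  have hne : (Zs S s).Nonempty := exists_phi hs
  rw [coeff_KK_disj hs hs0 (fun u hu v hv _ _ _ => hsub hu hv) hfin]
  have : (Zs S s).ncard = 1 := by
    rw [Set.ncard_eq_one]
    obtain ⟨u, hu⟩ := hne
    exact ⟨u, hsub.eq_singleton_of_mem hu⟩
  rw [this]; norm_num

end numer


/-! ### Products of the units `1 - x^j` -/

section units

/-- congruence modulo `x^(N+1)` -/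
def Cong (N : ℕ) (f g : ℤ⟦X⟧) : Prop := ∀ m ≤ N, coeff m f = coeff m g

theorem cong_iff {N : ℕ} {f g : ℤ⟦X⟧} : Cong N f g ↔
    Ideal.Quotient.mk (Ideal.span {(X : ℤ⟦X⟧) ^ (N + 1)}) f = Ideal.Quotient.mk _ g := by
  rw [Ideal.Quotient.eq, Ideal.mem_span_singleton, X_pow_dvd_iff]
  constructor
  · intro h m hm
    rw [map_sub, h m (by omega), sub_self]
  · intro h m hm
    have := h m (by omega)
    rwa [map_sub, sub_eq_zero] at this

theorem Cong.mul {N : ℕ} {f g f' g' : ℤ⟦X⟧} (h : Cong N f g) (h' : Cong N f' g') :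
    Cong N (f * f') (g * g') := by
  rw [cong_iff] at *
  rw [map_mul, map_mul, h, h']

theorem Cong.prod {N : ℕ} {ι : Type} (s : Finset ι) {f g : ι → ℤ⟦X⟧}
    (h : ∀ i ∈ s, Cong N (f i) (g i)) : Cong N (∏ i ∈ s, f i) (∏ i ∈ s, g i) := by
  rw [cong_iff, map_prod, map_prod]
  exact Finset.prod_congr rfl fun i hi => cong_iff.1 (h i hi)

theorem Cong.cancel {N : ℕ} {f g : ℤ⟦X⟧} (u : ℤ⟦X⟧ˣ) (h : Cong N (u * f) (u * g)) :
    Cong N f g := by
  have h2 := Cong.mul (N := N) (f := ((u⁻¹ : ℤ⟦X⟧ˣ) : ℤ⟦X⟧)) (g := ((u⁻¹ : ℤ⟦X⟧ˣ) : ℤ⟦X⟧))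
    (fun _ _ => rfl) h
  rwa [Units.inv_mul_cancel_left, Units.inv_mul_cancel_left] at h2

theorem Cong.symm {N : ℕ} {f g : ℤ⟦X⟧} (h : Cong N f g) : Cong N g f := fun m hm => (h m hm).symm

theorem Cong.trans {N : ℕ} {f g k : ℤ⟦X⟧} (h : Cong N f g) (h' : Cong N g k) : Cong N f k :=
  fun m hm => (h m hm).trans (h' m hm)

theorem factor_val (j : ℕ) : (factor j : ℤ⟦X⟧) = 1 - X ^ (j + 1) := rfl

theorem const_factor_zpow (j : ℕ) (g : ℤ) :
    constantCoeff ((factor j ^ g : ℤ⟦X⟧ˣ) : ℤ⟦X⟧) = 1 := by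
  have h1 : Units.map (constantCoeff (R := ℤ)).toMonoidHom (factor j) = 1 := by
    ext
    simp [factor_val]
  have h2 : Units.map (constantCoeff (R := ℤ)).toMonoidHom (factor j ^ g) = 1 := by
    rw [map_zpow, h1, one_zpow]
  exact congrArg Units.val h2

/-- `(1 - x^(j+1))^g ≡ 1 - g x^(j+1)` modulo `x^(j+2)` -/
theorem cong_zpow (j : ℕ) (g : ℤ) :
    Cong (j + 1) ((factor j ^ g : ℤ⟦X⟧ˣ) : ℤ⟦X⟧) (1 - C g * X ^ (j + 1)) := by
  have hX : ∀ c d : ℤ, Cong (j + 1) ((1 - C c * X ^ (j + 1)) * (1 - C d * X ^ (j + 1)))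
      (1 - C (c + d) * X ^ (j + 1)) := by
    intro c d m hm
    have e : (1 - C c * X ^ (j + 1)) * (1 - C d * X ^ (j + 1)) =
        (1 - C (c + d) * X ^ (j + 1)) + C (c * d) * X ^ (2 * (j + 1)) := by
      simp only [map_add, map_mul]; ring
    rw [e, map_add, coeff_C_mul, coeff_X_pow, if_neg (by omega), mul_zero, add_zero]
  have h1 : Cong (j + 1) (factor j : ℤ⟦X⟧) (1 - C 1 * X ^ (j + 1)) := by
    rw [factor_val, map_one, one_mul]; exact fun _ _ => rfl
  have hinv : Cong (j + 1) ((factor j)⁻¹ : ℤ⟦X⟧ˣ) (1 - C (-1) * X ^ (j + 1)) := by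
    apply Cong.cancel (factor j)
    rw [Units.mul_inv]
    refine (Cong.trans (Cong.mul h1 (fun _ _ => rfl)) ?_).symm
    refine (hX 1 (-1)).trans ?_
    simp only [add_neg_cancel, map_zero, zero_mul, sub_zero]
    exact fun _ _ => rfl
  induction g using Int.induction_on with
  | zero => simp only [zpow_zero, Units.val_one, map_zero, zero_mul, sub_zero]
            exact fun _ _ => rfl
  | succ n ih =>
    rw [zpow_add_one, Units.val_mul]
    exact (Cong.mul ih h1).trans (hX _ _)
  | pred n ih =>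
    rw [zpow_sub_one, Units.val_mul]
    exact (Cong.mul ih hinv).trans (hX _ _)

/-- the truncated products -/
noncomputable def QQ (g : ℕ → ℤ) (N : ℕ) : ℤ⟦X⟧ˣ := ∏ j ∈ Finset.range N, factor j ^ g (j + 1)

theorem QQ_succ (g : ℕ → ℤ) (N : ℕ) : QQ g (N + 1) = QQ g N * factor N ^ g (N + 1) :=
  Finset.prod_range_succ _ _

theorem const_QQ (g : ℕ → ℤ) (N : ℕ) : constantCoeff (QQ g N : ℤ⟦X⟧) = 1 := by
  induction N with
  | zero => simp [QQ]
  | succ N ih => rw [QQ_succ, Units.val_mul, map_mul, ih, const_factor_zpow, one_mul]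

theorem coeff_QQ_succ (g : ℕ → ℤ) (N : ℕ) :
    coeff (N + 1) (QQ g (N + 1) : ℤ⟦X⟧) = coeff (N + 1) (QQ g N : ℤ⟦X⟧) - g (N + 1) := by
  rw [QQ_succ, Units.val_mul, Cong.mul (fun _ _ => rfl) (cong_zpow N (g (N + 1))) (N + 1) le_rfl]
  have e : (QQ g N : ℤ⟦X⟧) * (1 - C (g (N + 1)) * X ^ (N + 1)) =
      (QQ g N : ℤ⟦X⟧) - C (g (N + 1)) * ((QQ g N : ℤ⟦X⟧) * X ^ (N + 1)) := by ring
  rw [e, map_sub, coeff_C_mul]
  have : coeff (N + 1) ((QQ g N : ℤ⟦X⟧) * X ^ (N + 1)) = coeff 0 (QQ g N : ℤ⟦X⟧) := by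
    have := coeff_mul_X_pow (QQ g N : ℤ⟦X⟧) (N + 1) 0
    rwa [zero_add] at this
  rw [this, coeff_zero_eq_constantCoeff_apply, const_QQ, mul_one]

theorem cong_one (j N : ℕ) (h : N ≤ j) (g : ℤ) :
    Cong N ((factor j ^ g : ℤ⟦X⟧ˣ) : ℤ⟦X⟧) 1 := by
  intro m hm
  rw [cong_zpow j g m (by omega), map_sub, coeff_C_mul, coeff_X_pow, if_neg (by omega), mul_zero,
    sub_zero]

theorem cong_QQ (g : ℕ → ℤ) {N M : ℕ} (h : N ≤ M) : Cong N (QQ g M : ℤ⟦X⟧) (QQ g N) := by
  induction M with
  | zero =>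
    obtain rfl : N = 0 := by omega
    exact fun _ _ => rfl
  | succ M ih =>
    by_cases hN : N ≤ M
    · rw [QQ_succ, Units.val_mul]
      refine (Cong.mul (ih hN) (cong_one M N hN _)).trans ?_
      rw [mul_one]; exact fun _ _ => rfl
    · obtain rfl : N = M + 1 := by omega
      exact fun _ _ => rfl

/-- power series supported in a submonoid -/
def RT (T : AddSubmonoid ℕ) : Subring ℤ⟦X⟧ where
  carrier := {f | ∀ m, coeff m f ≠ 0 → m ∈ T}
  zero_mem' := by intro m hm; simp at hm
  one_mem' := by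
    intro m hm
    rw [coeff_one] at hm
    by_cases h : m = 0
    · rw [h]; exact T.zero_mem
    · rw [if_neg h] at hm; exact absurd rfl hm
  add_mem' := by
    intro f g hf hg m hm
    by_cases h : coeff m f = 0
    · apply hg m
      intro h'
      rw [map_add, h, h', add_zero] at hm
      exact hm rfl
    · exact hf m h
  neg_mem' := by
    intro f hf m hm
    apply hf m
    intro h
    rw [map_neg, h, neg_zero] at hm
    exact hm rfl
  mul_mem' := by
    intro f g hf hg m hm
    rw [coeff_mul] at hm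
    obtain ⟨p, hp, hp'⟩ := Finset.exists_ne_zero_of_sum_ne_zero hm
    rw [Finset.HasAntidiagonal.mem_antidiagonal] at hp
    rw [← hp]
    exact T.add_mem (hf _ (left_ne_zero_of_mul hp')) (hg _ (right_ne_zero_of_mul hp'))

theorem inv_factor (j : ℕ) : (((factor j)⁻¹ : ℤ⟦X⟧ˣ) : ℤ⟦X⟧) =
    PowerSeries.mk fun n => if (j + 1) ∣ n then 1 else 0 := by
  rw [Units.inv_eq_of_mul_eq_one_right]
  rw [factor_val, sub_mul, one_mul, mul_comm]
  ext n
  rw [map_sub, coeff_mul_X_pow', coeff_mk, coeff_one]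
  by_cases hn : n = 0
  · subst hn
    simp
  · rw [if_neg hn]
    by_cases hj : j + 1 ≤ n
    · rw [if_pos hj, coeff_mk]
      have : (j + 1 ∣ n - (j + 1)) ↔ (j + 1 ∣ n) := by
        constructor
        · intro h
          have := Dvd.dvd.add h (dvd_refl (j + 1))
          rwa [Nat.sub_add_cancel hj] at this
        · intro h
          exact Nat.dvd_sub h (dvd_refl _)
      simp only [this, sub_self]
    · rw [if_neg hj, if_neg, sub_zero]
      intro h
      exact hj (Nat.le_of_dvd (Nat.pos_of_ne_zero hn) h)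

theorem factor_zpow_mem {T : AddSubmonoid ℕ} {j : ℕ} (h : j + 1 ∈ T) (g : ℤ) :
    ((factor j ^ g : ℤ⟦X⟧ˣ) : ℤ⟦X⟧) ∈ RT T := by
  have h1 : (factor j : ℤ⟦X⟧) ∈ RT T := by
    rw [factor_val]
    apply sub_mem (one_mem _)
    intro m hm
    rw [coeff_X_pow] at hm
    by_cases hmj : m = j + 1
    · rw [hmj]; exact h
    · rw [if_neg hmj] at hm; exact absurd rfl hm
  have h2 : ((factor j)⁻¹ : ℤ⟦X⟧ˣ).val ∈ RT T := by
    rw [inv_factor]
    intro m hm
    rw [coeff_mk] at hm
    by_cases hmj : j + 1 ∣ m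
    · obtain ⟨c, rfl⟩ := hmj
      rw [mul_comm, ← smul_eq_mul]
      exact T.nsmul_mem h c
    · rw [if_neg hmj] at hm; exact absurd rfl hm
  obtain ⟨n, rfl | rfl⟩ := g.eq_nat_or_neg
  · rw [zpow_natCast, Units.val_pow_eq_pow_val]
    exact pow_mem h1 n
  · rw [zpow_neg, zpow_natCast, ← inv_pow, Units.val_pow_eq_pow_val]
    exact pow_mem h2 n

theorem QQ_mem {T : AddSubmonoid ℕ} {g : ℕ → ℤ} {N : ℕ}
    (h : ∀ j, 1 ≤ j → j ≤ N → g j ≠ 0 → j ∈ T) : (QQ g N : ℤ⟦X⟧) ∈ RT T := by
  rw [QQ, Units.coe_prod]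
  apply prod_mem
  intro j hj
  rw [Finset.mem_range] at hj
  by_cases hg : g (j + 1) = 0
  · rw [hg, zpow_zero, Units.val_one]
    exact one_mem _
  · exact factor_zpow_mem (h (j + 1) (by omega) (by omega) hg) _

end units


/-! ### The exponents of the numerator -/

section transfer

variable {S : AddSubmonoid ℕ} [Fintype (gens S)]

open Classical in
/-- the exponents of the numerator -/
noncomputable def gg (S : AddSubmonoid ℕ) (ε : ℕ → ℤ) (d : ℕ) : ℤ :=
  ε d + (if d ∈ gens S then 1 else 0) - (if d = 1 then 1 else 0)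

theorem QQ_add (g h : ℕ → ℤ) (N : ℕ) : QQ (fun d => g d + h d) N = QQ g N * QQ h N := by
  rw [QQ, QQ, QQ, ← Finset.prod_mul_distrib]
  exact Finset.prod_congr rfl fun j _ => zpow_add _ _ _

open Classical in
theorem cong_gens (N : ℕ) : Cong N (∏ i : gens S, (1 - X ^ (i : ℕ) : ℤ⟦X⟧))
    (QQ (fun d => if d ∈ gens S then 1 else 0) N) := by
  have hfin : (gens S).Finite := Set.toFinite _
  have h1 : ∏ i : gens S, (1 - X ^ (i : ℕ) : ℤ⟦X⟧) = ∏ i ∈ hfin.toFinset, (1 - X ^ i : ℤ⟦X⟧) := by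
    refine Finset.prod_bij (fun i _ => (i : ℕ)) ?_ ?_ ?_ ?_
    · intro i _; rw [Set.Finite.mem_toFinset]; exact i.2
    · intro i _ j _ h; exact Subtype.ext h
    · intro i hi; exact ⟨⟨i, (Set.Finite.mem_toFinset _).1 hi⟩, Finset.mem_univ _, rfl⟩
    · intro i _; rfl
  have h2 : (QQ (fun d => if d ∈ gens S then 1 else 0) N : ℤ⟦X⟧ˣ).val =
      ∏ i ∈ hfin.toFinset, (if i ≤ N then 1 - X ^ i else 1 : ℤ⟦X⟧) := by
    rw [QQ, Units.coe_prod, ← Finset.prod_filter]
    have : ∀ j ∈ Finset.range N, (((factor j ^ (if j + 1 ∈ gens S then (1 : ℤ) else 0) : ℤ⟦X⟧ˣ)) :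
        ℤ⟦X⟧) = if j + 1 ∈ gens S then 1 - X ^ (j + 1) else 1 := by
      intro j _
      by_cases h : j + 1 ∈ gens S
      · rw [if_pos h, if_pos h, zpow_one, factor_val]
      · rw [if_neg h, if_neg h, zpow_zero, Units.val_one]
    rw [Finset.prod_congr rfl this, ← Finset.prod_filter]
    refine Finset.prod_bij (fun j _ => j + 1) ?_ ?_ ?_ ?_
    · intro j hj
      rw [Finset.mem_filter, Finset.mem_range] at hj
      rw [Finset.mem_filter, Set.Finite.mem_toFinset]
      exact ⟨hj.2, by omega⟩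
    · intro i _ j _ h; omega
    · intro i hi
      rw [Finset.mem_filter, Set.Finite.mem_toFinset] at hi
      have : i ≠ 0 := hi.1.2.1
      refine ⟨i - 1, ?_, by omega⟩
      rw [Finset.mem_filter, Finset.mem_range]
      refine ⟨by omega, ?_⟩
      rw [Nat.sub_add_cancel (by omega)]
      exact hi.1
    · intro j _; rfl
  rw [h1, h2]
  apply Cong.prod
  intro i _
  by_cases h : i ≤ N
  · rw [if_pos h]; exact fun _ _ => rfl
  · rw [if_neg h]
    intro m hm
    rw [map_sub, coeff_X_pow, if_neg (by omega), sub_zero]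

theorem cong_one_sub (N : ℕ) : Cong N (1 - X : ℤ⟦X⟧)
    (QQ (fun d => if d = 1 then 1 else 0) N) := by
  rcases N with _ | N
  · intro m hm
    obtain rfl : m = 0 := by omega
    simp [QQ]
  · have : QQ (fun d => if d = 1 then (1 : ℤ) else 0) (N + 1) = factor 0 := by
      rw [QQ, Finset.prod_eq_single 0]
      · simp
      · intro j _ hj
        rw [if_neg (by omega), zpow_zero]
      · intro h; exact absurd (Finset.mem_range.2 (by omega)) h
    rw [this, factor_val, zero_add, pow_one]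
    exact fun _ _ => rfl

theorem cong_KK {ε : ℕ → ℤ} (hε : IsExponentSeq S ε) (N : ℕ) :
    Cong N (KK S) (QQ (gg S ε) N) := by
  classical
  apply Cong.cancel (QQ (fun d => if d = 1 then 1 else 0) N)
  have h1 : QQ (fun d => if d = 1 then 1 else 0) N * QQ (gg S ε) N =
      QQ ε N * QQ (fun d => if d ∈ gens S then 1 else 0) N := by
    rw [← QQ_add, ← QQ_add]
    congr 1
    funext d
    rw [gg]; ring
  rw [← Units.val_mul, h1, Units.val_mul]
  have h2 : Cong N ((1 - X) * KK S) (QQ ε N * QQ (fun d => if d ∈ gens S then 1 else 0) N) := by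
    rw [KK, ← mul_assoc]
    exact Cong.mul (fun m hm => hε N m hm) (cong_gens N)
  exact (Cong.mul (cong_one_sub N).symm (fun _ _ => rfl)).trans h2

/-- elements in the support of the exponents have at least two factorizations -/
theorem two_of_gg {ε : ℕ → ℤ} (hS : ((S : Set ℕ)ᶜ).Finite) (hε : IsExponentSeq S ε) :
    ∀ d, 1 ≤ d → gg S ε d ≠ 0 → Two S d := by
  intro d
  induction d using Nat.strong_induction_on with
  | _ d ih =>
    intro hd hg
    obtain ⟨N, rfl⟩ : ∃ N, d = N + 1 := ⟨d - 1, by omega⟩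
    let T : AddSubmonoid ℕ :=
      { carrier := {m | m = 0 ∨ Two S m}
        zero_mem' := Or.inl rfl
        add_mem' := by
          rintro x y (rfl | hx) (rfl | hy)
          · exact Or.inl rfl
          · right; rwa [zero_add]
          · right; rwa [add_zero]
          · exact Or.inr (two_add hx (two_mem hy)) }
    have hT : (QQ (gg S ε) N : ℤ⟦X⟧) ∈ RT T :=
      QQ_mem fun j hj1 hj2 hgj => Or.inr (ih j (by omega) hj1 hgj)
    have h1 := cong_KK hε (N + 1) (N + 1) le_rfl
    rw [coeff_QQ_succ] at h1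
    by_cases h0 : coeff (N + 1) (QQ (gg S ε) N : ℤ⟦X⟧) = 0
    · rw [h0, zero_sub] at h1
      have hK : coeff (N + 1) (KK S) ≠ 0 := by rw [h1]; exact neg_ne_zero.2 hg
      have hmem : N + 1 ∈ S := by
        by_contra h
        exact hK (coeff_KK_not_mem h)
      by_contra hT2
      exact hK (coeff_KK_unique hmem (by omega) hT2 (Zs_finite hS _))
    · rcases hT _ h0 with h | h
      · omega
      · exact h

theorem not_two_gen {n : ℕ} (hn : n ∈ gens S) : ¬ Two S n := by
  rintro ⟨u, hu, v, hv, huv⟩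
  apply huv
  rw [phi_gen (n := ⟨n, hn⟩) hu, phi_gen (n := ⟨n, hn⟩) hv]

theorem not_two_one : ¬ Two S 1 := by
  intro h
  have h1 := two_mem h
  apply not_two_gen (S := S) _ h
  refine ⟨h1, one_ne_zero, fun x _ y _ hxy => by omega⟩

end transfer


/-! ### The two elements -/

section twoel

variable {S : AddSubmonoid ℕ} [Fintype (gens S)]

theorem leS_antisymm {x y : ℕ} (h : leS S x y) (h' : leS S y x) : x = y := by
  obtain ⟨z, _, hz⟩ := h
  obtain ⟨w, _, hw⟩ := h'
  omega

theorem leS_trans {x y z : ℕ} (h : leS S x y) (h' : leS S y z) : leS S x z := by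
  obtain ⟨u, hu, rfl⟩ := h
  obtain ⟨w, hw, rfl⟩ := h'
  exact ⟨u + w, S.add_mem hu hw, by omega⟩

theorem leS_refl (x : ℕ) : leS S x x := ⟨0, S.zero_mem, add_zero x⟩

/-- the data extracted from the exponent sequence; symmetric in `a` and `b` -/
structure Data (S : AddSubmonoid ℕ) [Fintype (gens S)] (g : ℕ → ℤ) (a b : ℕ) : Prop where
  cong : ∀ N, Cong N (KK S) (QQ g N)
  supp : ∀ d, 1 ≤ d → g d ≠ 0 → d = a ∨ d = b
  ne : a ≠ b
  twoa : Two S a
  twob : Two S b
  nab : ¬ leS S a b
  nba : ¬ leS S b a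

theorem Data.symm {g : ℕ → ℤ} {a b : ℕ} (h : Data S g a b) : Data S g b a :=
  ⟨h.cong, fun d hd hg => (h.supp d hd hg).symm, h.ne.symm, h.twob, h.twoa, h.nba, h.nab⟩

theorem data_of {ε : ℕ → ℤ} (hS : ((S : Set ℕ)ᶜ).Finite) (hε : IsExponentSeq S ε) {a b : ℕ}
    (hab : a ≠ b) (hE : ESet S ε = {a, b}) (h1 : ¬ leS S a b) (h2 : ¬ leS S b a) :
    Data S (gg S ε) a b := by
  have hgg : ∀ d, 2 ≤ d → d ∉ gens S → gg S ε d = ε d := by
    intro d hd hd'
    rw [gg, if_neg hd', if_neg (by omega)]; ring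
  have htwo : ∀ d ∈ ESet S ε, Two S d := by
    rintro d ⟨hd1, hd2, hd3⟩
    apply two_of_gg hS hε d (by omega)
    rwa [hgg d hd1 hd3]
  refine ⟨cong_KK hε, ?_, hab, htwo a ?_, htwo b ?_, h1, h2⟩
  · intro d hd hg
    have h3 := two_of_gg hS hε d hd hg
    have h4 : d ∉ gens S := fun h => not_two_gen h h3
    have h5 : d ≠ 1 := by rintro rfl; exact not_two_one h3
    have h6 : d ∈ ESet S ε := ⟨by omega, by rwa [hgg d (by omega) h4] at hg, h4⟩
    rw [hE] at h6
    exact h6
  · rw [hE]; exact Or.inl rfl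
  · rw [hE]; exact Or.inr rfl

namespace Data

variable {g : ℕ → ℤ} {a b : ℕ} (D : Data S g a b)
include D

theorem pos : 1 ≤ a := by
  rcases Nat.eq_zero_or_pos a with h | h
  · exfalso
    obtain ⟨u, hu, v, hv, huv⟩ := D.twoa
    rw [h] at hu hv
    exact huv ((phi_eq_zero hu).trans (phi_eq_zero hv).symm)
  · exact h

theorem leS_of_coeff {t : ℕ} (ht : t ≠ 0) (hc : coeff t (KK S) ≠ 0) : leS S a t ∨ leS S b t := by
  let T : AddSubmonoid ℕ :=
    { carrier := {m | m = 0 ∨ leS S a m ∨ leS S b m}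
      zero_mem' := Or.inl rfl
      add_mem' := by
        have haux : ∀ m, (m = 0 ∨ leS S a m ∨ leS S b m) → m ∈ S := by
          rintro m (rfl | ⟨z, hz, rfl⟩ | ⟨z, hz, rfl⟩)
          · exact S.zero_mem
          · exact S.add_mem (two_mem D.twoa) hz
          · exact S.add_mem (two_mem D.twob) hz
        rintro x y hx hy
        have hy' := haux y hy
        rcases hx with rfl | ⟨z, hz, rfl⟩ | ⟨z, hz, rfl⟩
        · rw [zero_add]; exact hy
        · exact Or.inr (Or.inl ⟨z + y, S.add_mem hz hy', by ring⟩)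
        · exact Or.inr (Or.inr ⟨z + y, S.add_mem hz hy', by ring⟩) }
  have hT : (QQ g t : ℤ⟦X⟧) ∈ RT T := by
    apply QQ_mem
    intro j hj1 _ hgj
    rcases D.supp j hj1 hgj with rfl | rfl
    · exact Or.inr (Or.inl (leS_refl _))
    · exact Or.inr (Or.inr (leS_refl _))
  rw [D.cong t t le_rfl] at hc
  rcases hT t hc with h | h
  · exact absurd h ht
  · exact h

theorem min_a (hS : ((S : Set ℕ)ᶜ).Finite) : ∀ t, Two S t → leS S t a → t = a := by
  intro t ht hta
  obtain ⟨t', ht'1, ht'2, ht'3⟩ := exists_min ht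
  have hd := disj_of_min ht'3
  have ht'0 : t' ≠ 0 := by
    rintro rfl
    obtain ⟨u, hu, v, hv, huv⟩ := ht'1
    exact huv ((phi_eq_zero hu).trans (phi_eq_zero hv).symm)
  have hc : coeff t' (KK S) ≠ 0 := by
    rw [coeff_KK_disj (two_mem ht'1) ht'0 hd (Zs_finite hS _)]
    have := (Zs_finite hS t').to_subtype
    have : 1 < (Zs S t').ncard := Set.one_lt_ncard_iff_nontrivial.2 ht'1
    omega
  rcases D.leS_of_coeff ht'0 hc with h | h
  · have h2 := ht'3 a D.twoa h
    rw [← h2] at ht'2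
    exact leS_antisymm hta ht'2
  · have h2 := ht'3 b D.twob h
    rw [← h2] at ht'2
    exact absurd (leS_trans ht'2 hta) D.nba

theorem disj (hS : ((S : Set ℕ)ᶜ).Finite) : DisjSupp S a := disj_of_min (D.min_a hS)

theorem ga (hS : ((S : Set ℕ)ᶜ).Finite) : g a = ((Zs S a).ncard : ℤ) - 1 := by
  have ha := D.pos
  obtain ⟨N, rfl⟩ : ∃ N, a = N + 1 := ⟨a - 1, by omega⟩
  have h1 := D.cong (N + 1) (N + 1) le_rfl
  rw [coeff_QQ_succ, coeff_KK_disj (two_mem D.twoa) (by omega) (D.disj hS) (Zs_finite hS _)] at h1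
  have h2 : coeff (N + 1) (QQ g N : ℤ⟦X⟧) = 0 := by
    by_contra hc
    have hT : (QQ g N : ℤ⟦X⟧) ∈ RT (AddSubmonoid.multiples b) := by
      apply QQ_mem
      intro j hj1 hj2 hgj
      rcases D.supp j hj1 hgj with rfl | rfl
      · omega
      · exact AddSubmonoid.mem_multiples _
    obtain ⟨c, hc'⟩ := hT _ hc
    apply D.nba
    have hc2 : c * b = N + 1 := by simpa using hc'
    have hc0 : c ≠ 0 := by rintro rfl; omega
    obtain ⟨c', rfl⟩ := Nat.exists_eq_succ_of_ne_zero hc0
    refine ⟨c' • b, S.nsmul_mem (two_mem D.twob) c', ?_⟩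
    rw [smul_eq_mul, ← hc2]
    simp only [Nat.succ_eq_add_one]; ring
  rw [h2] at h1
  linarith

end Data

end twoel


/-! ### The polynomial identity -/

section poly

variable {S : AddSubmonoid ℕ} [Fintype (gens S)]

/-- the semigroup polynomial -/
noncomputable def PP (hS : ((S : Set ℕ)ᶜ).Finite) : Polynomial ℤ :=
  1 - (1 - Polynomial.X) * ∑ n ∈ hS.toFinset, Polynomial.X ^ n

theorem PP_coe (hS : ((S : Set ℕ)ᶜ).Finite) : (PP hS : ℤ⟦X⟧) = (1 - X) * hilb S := by
  classical
  have h1 : hilb S + ∑ n ∈ hS.toFinset, (X : ℤ⟦X⟧) ^ n = ((factor 0)⁻¹ : ℤ⟦X⟧ˣ) := by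
    rw [inv_factor]
    ext n
    rw [map_add, coeff_hilb, map_sum, coeff_mk, zero_add, if_pos (one_dvd n)]
    simp only [coeff_X_pow]
    rw [Finset.sum_ite_eq]
    by_cases hn : n ∈ S
    · rw [if_pos hn, if_neg, add_zero]
      rw [Set.Finite.mem_toFinset]
      exact fun h => h hn
    · rw [if_neg hn, if_pos, zero_add]
      rw [Set.Finite.mem_toFinset]
      exact hn
  have h2 : (1 - X : ℤ⟦X⟧) * ((factor 0)⁻¹ : ℤ⟦X⟧ˣ) = 1 := by
    have := (factor 0).mul_inv
    rwa [factor_val, zero_add, pow_one] at this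
  rw [← h1, mul_add] at h2
  have hs : ((∑ n ∈ hS.toFinset, Polynomial.X ^ n : Polynomial ℤ) : ℤ⟦X⟧) =
      ∑ n ∈ hS.toFinset, (X : ℤ⟦X⟧) ^ n := by
    rw [← Polynomial.coeToPowerSeries.ringHom_apply, map_sum]
    exact Finset.sum_congr rfl fun i _ => by
      rw [Polynomial.coeToPowerSeries.ringHom_apply]; simp
  rw [PP]
  push_cast
  rw [hs]
  linear_combination -h2

theorem PP_eval (hS : ((S : Set ℕ)ᶜ).Finite) : (PP hS).eval 1 = 1 := by
  simp [PP]

theorem Data.KK_eq {g : ℕ → ℤ} {a b : ℕ} (D : Data S g a b) {α β : ℕ} (hα : g a = α)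
    (hβ : g b = β) : KK S = (1 - X ^ a) ^ α * (1 - X ^ b) ^ β := by
  ext m
  have ha := D.pos
  have hb := D.symm.pos
  set N := m + a + b with hN
  rw [D.cong N m (by omega)]
  have h1 : QQ g N = factor (a - 1) ^ (α : ℤ) * factor (b - 1) ^ (β : ℤ) := by
    rw [QQ]
    have hsub : ({a - 1, b - 1} : Finset ℕ) ⊆ Finset.range N := by
      intro x hx
      rw [Finset.mem_insert, Finset.mem_singleton] at hx
      rw [Finset.mem_range]
      omega
    rw [← Finset.prod_subset hsub]
    · rw [Finset.prod_pair, Nat.sub_add_cancel ha, Nat.sub_add_cancel hb, hα, hβ]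
      have := D.ne
      omega
    · intro j _ hj
      have : g (j + 1) = 0 := by
        by_contra hg
        apply hj
        rw [Finset.mem_insert, Finset.mem_singleton]
        rcases D.supp (j + 1) (by omega) hg with h | h
        · left; omega
        · right; omega
      rw [this, zpow_zero]
  rw [h1, Units.val_mul, zpow_natCast, zpow_natCast, Units.val_pow_eq_pow_val,
    Units.val_pow_eq_pow_val, factor_val, factor_val, Nat.sub_add_cancel ha, Nat.sub_add_cancel hb]

theorem Data.poly {g : ℕ → ℤ} {a b : ℕ} (D : Data S g a b) (hS : ((S : Set ℕ)ᶜ).Finite) {α β : ℕ}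
    (hα : g a = α) (hβ : g b = β) :
    PP hS * ∏ i : gens S, (1 - Polynomial.X ^ (i : ℕ)) =
      (1 - Polynomial.X) * (1 - Polynomial.X ^ a) ^ α * (1 - Polynomial.X ^ b) ^ β := by
  apply Polynomial.coe_injective
  have h := D.KK_eq hα hβ
  have h1 : ((∏ i : gens S, (1 - Polynomial.X ^ (i : ℕ)) : Polynomial ℤ) : ℤ⟦X⟧) =
      ∏ i : gens S, (1 - X ^ (i : ℕ)) := by
    rw [← Polynomial.coeToPowerSeries.ringHom_apply, map_prod]
    exact Finset.prod_congr rfl fun i _ => by
      rw [Polynomial.coeToPowerSeries.ringHom_apply]; simp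
  rw [Polynomial.coe_mul, h1, PP_coe]
  push_cast
  rw [mul_assoc, show hilb S * ∏ i : gens S, (1 - X ^ (i : ℕ)) = KK S from rfl, h, mul_assoc]

theorem Data.dvd {g : ℕ → ℤ} {a b : ℕ} (D : Data S g a b) (hS : ((S : Set ℕ)ᶜ).Finite) {α β : ℕ}
    (hα : g a = α) (hβ : g b = β) (i : gens S) : (i : ℕ) ∣ a ∨ (i : ℕ) ∣ b := by
  by_cases hi1 : (i : ℕ) = 1
  · left; rw [hi1]; exact one_dvd _
  have hi := gen_pos i
  have hζ := Complex.isPrimitiveRoot_exp (i : ℕ) hi.ne'
  set ζ := Complex.exp (2 * Real.pi * Complex.I / (i : ℕ)) with hζd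
  have h := congrArg (Polynomial.aeval ζ) (D.poly hS hα hβ)
  rw [map_mul, map_prod, Finset.prod_eq_zero (Finset.mem_univ i), mul_zero] at h
  · simp only [map_mul, map_sub, map_one, map_pow, Polynomial.aeval_X] at h
    have h' := h.symm
    rw [mul_eq_zero, mul_eq_zero] at h'
    rcases h' with (h' | h') | h'
    · exfalso
      have : ζ ^ 1 = 1 := by rw [pow_one]; exact (sub_eq_zero.1 h').symm
      have := hζ.dvd_of_pow_eq_one 1 this
      rw [Nat.dvd_one] at this
      exact hi1 this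
    · left
      have hα0 : α ≠ 0 := by
        rintro rfl
        rw [pow_zero] at h'; exact one_ne_zero h'
      exact hζ.dvd_of_pow_eq_one a (sub_eq_zero.1 ((pow_eq_zero_iff hα0).1 h')).symm
    · right
      have hβ0 : β ≠ 0 := by
        rintro rfl
        rw [pow_zero] at h'; exact one_ne_zero h'
      exact hζ.dvd_of_pow_eq_one b (sub_eq_zero.1 ((pow_eq_zero_iff hβ0).1 h')).symm
  · simp only [map_sub, map_one, map_pow, Polynomial.aeval_X]
    rw [hζ.pow_eq_one, sub_self]

/-- the geometric sum -/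
noncomputable def geo (n : ℕ) : Polynomial ℤ := ∑ j ∈ Finset.range n, Polynomial.X ^ j

theorem geo_mul (n : ℕ) : (1 - Polynomial.X) * geo n = 1 - Polynomial.X ^ n :=
  mul_neg_geom_sum _ _

theorem geo_eval (n : ℕ) : (geo n).eval 1 = n := by
  simp [geo, Polynomial.eval_finset_sum]

theorem Data.card {g : ℕ → ℤ} {a b : ℕ} (D : Data S g a b) (hS : ((S : Set ℕ)ᶜ).Finite) {α β : ℕ}
    (hα : g a = α) (hβ : g b = β) : Fintype.card (gens S) = 1 + α + β := by
  have h := D.poly hS hα hβ
  set e := Fintype.card (gens S) with he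
  have hl : ∏ i : gens S, (1 - Polynomial.X ^ (i : ℕ) : Polynomial ℤ) =
      (1 - Polynomial.X) ^ e * ∏ i : gens S, geo (i : ℕ) := by
    rw [he, ← Finset.card_univ, ← Finset.prod_const, ← Finset.prod_mul_distrib]
    exact Finset.prod_congr rfl fun i _ => (geo_mul _).symm
  have hne : (1 - Polynomial.X : Polynomial ℤ) ≠ 0 := by
    intro h0
    have := congrArg (Polynomial.eval 0) h0
    simp at this
  have h' : (1 - Polynomial.X) ^ e * (PP hS * ∏ i : gens S, geo (i : ℕ)) =
      (1 - Polynomial.X) ^ (1 + α + β) * (geo a ^ α * geo b ^ β) := by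
    calc (1 - Polynomial.X) ^ e * (PP hS * ∏ i : gens S, geo (i : ℕ)) =
        PP hS * ((1 - Polynomial.X) ^ e * ∏ i : gens S, geo (i : ℕ)) := by ring
      _ = PP hS * ∏ i : gens S, (1 - Polynomial.X ^ (i : ℕ)) := by rw [hl]
      _ = (1 - Polynomial.X) * (1 - Polynomial.X ^ a) ^ α * (1 - Polynomial.X ^ b) ^ β := h
      _ = (1 - Polynomial.X) * ((1 - Polynomial.X) * geo a) ^ α *
          ((1 - Polynomial.X) * geo b) ^ β := by rw [geo_mul, geo_mul]
      _ = (1 - Polynomial.X) ^ (1 + α + β) * (geo a ^ α * geo b ^ β) := by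
          rw [mul_pow, mul_pow]; ring
  have hev1 : (PP hS * ∏ i : gens S, geo (i : ℕ)).eval 1 ≠ 0 := by
    rw [Polynomial.eval_mul, PP_eval, one_mul, Polynomial.eval_prod]
    rw [Finset.prod_ne_zero_iff]
    intro i _
    rw [geo_eval]
    have := gen_pos i
    positivity
  have hev2 : (geo a ^ α * geo b ^ β).eval 1 ≠ 0 := by
    rw [Polynomial.eval_mul, Polynomial.eval_pow, Polynomial.eval_pow, geo_eval, geo_eval]
    have := D.pos
    have := D.symm.pos
    positivity
  rcases lt_trichotomy e (1 + α + β) with hlt | heq | hgt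
  · exfalso
    obtain ⟨d, hd⟩ := Nat.exists_eq_add_of_lt hlt
    rw [hd, add_assoc, pow_add, mul_assoc] at h'
    have := mul_left_cancel₀ (pow_ne_zero e hne) h'
    rw [this] at hev1
    apply hev1
    simp
  · exact heq
  · exfalso
    obtain ⟨d, hd⟩ := Nat.exists_eq_add_of_lt hgt
    rw [hd, add_assoc (1 + α + β), pow_add, mul_assoc] at h'
    have := mul_left_cancel₀ (pow_ne_zero _ hne) h'
    rw [← this] at hev2
    apply hev2
    simp

end poly


/-! ### Normal forms -/

section normal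

variable {S : AddSubmonoid ℕ} [Fintype (gens S)]

/-- a linear measure -/
noncomputable def psi (p : gens S → ℕ) : (gens S →₀ ℕ) →+ ℕ :=
  (Finsupp.linearCombination ℕ p).toAddMonoidHom

theorem psi_single (p : gens S → ℕ) (i : gens S) (c : ℕ) :
    psi p (Finsupp.single i c) = c * p i := by
  simp [psi]

/-- rewriting data -/
structure Rew (S : AddSubmonoid ℕ) [Fintype (gens S)] [DecidableEq (gens S)] (t : gens S)
    (c : gens S → ℕ) (w : gens S → (gens S →₀ ℕ)) (p : gens S → ℕ) : Prop where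
  phiw : ∀ i, i ≠ t → phi S (w i) = c i * i
  meas : ∀ i, i ≠ t → psi p (w i) < c i * p i
  gen : KK S = ∏ i ∈ Finset.univ.erase t, (1 - X ^ (c i * (i : ℕ)))

/-- the relations -/
def rels (t : gens S) (c : gens S → ℕ) (w : gens S → (gens S →₀ ℕ)) :
    Set ((gens S →₀ ℕ) × (gens S →₀ ℕ)) :=
  (fun i => (Finsupp.single i (c i), w i)) '' {i | i ≠ t}

variable [DecidableEq (gens S)] {t : gens S} {c : gens S → ℕ} {w : gens S → (gens S →₀ ℕ)}
  {p : gens S → ℕ} (hR : Rew S t c w p)
include hR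

theorem Rew.cpos {i : gens S} (hi : i ≠ t) : 0 < c i := by
  have := hR.meas i hi
  rcases Nat.eq_zero_or_pos (c i) with h | h
  · rw [h, zero_mul] at this; omega
  · exact h

theorem Rew.reduce (u : gens S →₀ ℕ) : ∃ v, addConGen (fun x y => (x, y) ∈ rels t c w) u v ∧
    ∀ i, i ≠ t → v i < c i := by
  induction hn : psi p u using Nat.strong_induction_on generalizing u with
  | _ n ih =>
    by_cases hnorm : ∀ i, i ≠ t → u i < c i
    · exact ⟨u, AddCon.refl _ u, hnorm⟩
    · push Not at hnorm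
      obtain ⟨i, hi, hci⟩ := hnorm
      have hle : Finsupp.single i (c i) ≤ u := by rwa [Finsupp.single_le_iff]
      obtain ⟨u', rfl⟩ := exists_add_of_le hle
      have hlt : psi p (w i + u') < n := by
        rw [← hn, map_add, map_add, psi_single]
        have := hR.meas i hi
        omega
      obtain ⟨v, hv1, hv2⟩ := ih _ hlt (w i + u') rfl
      refine ⟨v, ?_, hv2⟩
      refine AddCon.trans _ ?_ hv1
      apply AddCon.add _ _ (AddCon.refl _ u')
      exact AddConGen.Rel.of _ _ ⟨i, hi, rfl⟩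

open Classical in
/-- the factors of the generating function of the normal forms -/
noncomputable def ff (t : gens S) (c : gens S → ℕ) (i : gens S) : ℤ⟦X⟧ :=
  if i = t then PowerSeries.mk (fun n => if (i : ℕ) ∣ n then 1 else 0)
  else ∑ k ∈ Finset.range (c i), X ^ ((i : ℕ) * k)

omit hR in
theorem ff_t (i : gens S) (hi : i = t) : (1 - X ^ (i : ℕ)) * ff t c i = 1 := by
  rw [ff, if_pos hi]
  have h := gen_pos i
  obtain ⟨j, hj⟩ : ∃ j, (i : ℕ) = j + 1 := ⟨(i : ℕ) - 1, by omega⟩
  have h2 := (factor j).mul_inv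
  rw [factor_val, inv_factor] at h2
  rw [hj]
  exact h2

omit hR in
theorem ff_ne (i : gens S) (hi : i ≠ t) : (1 - X ^ (i : ℕ)) * ff t c i =
    1 - X ^ (c i * (i : ℕ)) := by
  rw [ff, if_neg hi]
  simp only [pow_mul]
  rw [mul_neg_geom_sum, ← pow_mul, ← pow_mul, mul_comm]

theorem Rew.prod_ff : ∏ i : gens S, ff t c i = hilb S := by
  have hne : (∏ i : gens S, (1 - X ^ (i : ℕ)) : ℤ⟦X⟧) ≠ 0 := by
    rw [Finset.prod_ne_zero_iff]
    intro i _ h
    have h1 := congrArg constantCoeff h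
    have := gen_pos i
    simp [this.ne'] at h1
  apply mul_left_cancel₀ hne
  rw [mul_comm _ (hilb S), show hilb S * ∏ i : gens S, (1 - X ^ (i : ℕ)) = KK S from rfl, hR.gen,
    ← Finset.prod_mul_distrib, ← Finset.mul_prod_erase Finset.univ _ (Finset.mem_univ t),
    ff_t t rfl, one_mul]
  exact Finset.prod_congr rfl fun i hi => ff_ne i (Finset.ne_of_mem_erase hi)

omit hR in
theorem coeff_ff_nonneg (i : gens S) (n : ℕ) : 0 ≤ coeff n (ff t c i) := by
  rw [ff]
  split_ifs with h
  · rw [coeff_mk]; split_ifs <;> norm_num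
  · rw [map_sum]
    apply Finset.sum_nonneg
    intro k _
    rw [coeff_X_pow]; split_ifs <;> norm_num

omit hR in
theorem coeff_ff_one {i : gens S} {k : ℕ} (h : i ≠ t → k < c i) :
    coeff (k * (i : ℕ)) (ff t c i) = 1 := by
  rw [ff]
  split_ifs with hi
  · rw [coeff_mk, if_pos (Dvd.intro_left _ rfl)]
  · rw [map_sum, Finset.sum_eq_single k]
    · rw [coeff_X_pow, if_pos (mul_comm _ _)]
    · intro j _ hj
      rw [coeff_X_pow, if_neg]
      intro he
      apply hj
      rw [mul_comm] at he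
      exact (Nat.eq_of_mul_eq_mul_left (gen_pos i) he).symm
    · intro hk
      exact absurd (Finset.mem_range.2 (h hi)) hk

theorem Rew.unique {u v : gens S →₀ ℕ} (hu : ∀ i, i ≠ t → u i < c i)
    (hv : ∀ i, i ≠ t → v i < c i) (huv : phi S u = phi S v) : u = v := by
  by_contra hne
  have hc := congrArg (coeff (phi S u)) hR.prod_ff
  rw [coeff_prod] at hc
  let L : (gens S →₀ ℕ) → (gens S →₀ ℕ) := fun u =>
    Finsupp.equivFunOnFinite.symm (fun i => u i * (i : ℕ))
  have hL : ∀ (u : gens S →₀ ℕ) i, L u i = u i * (i : ℕ) := fun u i => rfl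
  have hLmem : ∀ v : gens S →₀ ℕ, phi S v = phi S u →
      L v ∈ Finset.univ.finsuppAntidiag (phi S u) := by
    intro v hv
    rw [Finset.mem_finsuppAntidiag]
    refine ⟨?_, Finset.subset_univ _⟩
    rw [← hv, phi_apply, Finsupp.sum_fintype _ _ (fun i => zero_mul _)]
    exact Finset.sum_congr rfl fun i _ => hL v i
  have hLne : L u ≠ L v := by
    intro h
    apply hne
    ext i
    have := congrArg (fun f => f i) h
    simp only [hL] at this
    exact Nat.eq_of_mul_eq_mul_right (gen_pos i) this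
  have hLone : ∀ v : gens S →₀ ℕ, (∀ i, i ≠ t → v i < c i) →
      ∏ i : gens S, coeff (L v i) (ff t c i) = 1 := by
    intro v hv
    apply Finset.prod_eq_one
    intro i _
    rw [hL]
    exact coeff_ff_one (hv i)
  have hsum : (2 : ℤ) ≤ ∑ l ∈ Finset.univ.finsuppAntidiag (phi S u),
      ∏ i : gens S, coeff (l i) (ff t c i) := by
    have hsub : ({L u, L v} : Finset (gens S →₀ ℕ)) ⊆
        Finset.univ.finsuppAntidiag (phi S u) := by
      intro l hl
      rw [Finset.mem_insert, Finset.mem_singleton] at hl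
      rcases hl with rfl | rfl
      · exact hLmem u rfl
      · exact hLmem v huv.symm
    refine le_trans ?_ (Finset.sum_le_sum_of_subset_of_nonneg hsub fun l _ _ =>
      Finset.prod_nonneg fun i _ => coeff_ff_nonneg i _)
    rw [Finset.sum_pair hLne, hLone u hu, hLone v hv]
    norm_num
  classical
  rw [hc, coeff_hilb] at hsum
  split_ifs at hsum <;> omega

theorem Rew.presentation : IsPresentation S (rels t c w) := by
  apply le_antisymm
  · rw [AddCon.addConGen_le]
    rintro u v ⟨i, hi, h⟩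
    rw [Prod.mk.injEq] at h
    obtain ⟨rfl, rfl⟩ := h
    rw [AddCon.ker_rel]
    rw [phi_single, hR.phiw i hi]
  · intro u v huv
    rw [AddCon.ker_rel] at huv
    obtain ⟨u', hu1, hu2⟩ := hR.reduce u
    obtain ⟨v', hv1, hv2⟩ := hR.reduce v
    have hle : addConGen (fun x y => (x, y) ∈ rels t c w) ≤ AddCon.ker (phi S) := by
      rw [AddCon.addConGen_le]
      rintro u v ⟨i, hi, h⟩
      rw [Prod.mk.injEq] at h
      obtain ⟨rfl, rfl⟩ := h
      rw [AddCon.ker_rel]
      rw [phi_single, hR.phiw i hi]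
    have h1 : phi S u = phi S u' := (AddCon.ker_rel _).1 (hle hu1)
    have h2 : phi S v = phi S v' := (AddCon.ker_rel _).1 (hle hv1)
    have h3 : u' = v' := hR.unique hu2 hv2 (by rw [← h1, ← h2, huv])
    rw [h3] at hu1
    exact AddCon.trans _ hu1 (AddCon.symm _ hv1)

end normal


/-! ### Rank -/

section rank

variable {S : AddSubmonoid ℕ} [Fintype (gens S)]

/-- cast to rational vectors -/
noncomputable def castQ : (gens S →₀ ℕ) →+ (gens S →₀ ℚ) :=
  Finsupp.mapRange.addMonoidHom (Nat.castAddMonoidHom ℚ)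

theorem castQ_single (i : gens S) (c : ℕ) :
    castQ (Finsupp.single i c) = Finsupp.single i (c : ℚ) := by
  simp [castQ]

theorem card_le_of_presentation {ρ : Set ((gens S →₀ ℕ) × (gens S →₀ ℕ))} (hρ : ρ.Finite)
    (h : IsPresentation S ρ) : Fintype.card (gens S) ≤ ρ.ncard + 1 := by
  classical
  by_cases hne : Nonempty (gens S)
  swap
  · rw [not_nonempty_iff] at hne
    rw [Fintype.card_eq_zero]; omega
  obtain ⟨t⟩ := hne
  let D : Set (gens S →₀ ℚ) := (fun q : (gens S →₀ ℕ) × (gens S →₀ ℕ) => castQ q.1 - castQ q.2) '' ρ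
  let W : Submodule ℚ (gens S →₀ ℚ) := Submodule.span ℚ D
  let Cn : AddCon (gens S →₀ ℕ) :=
    { r := fun u v => castQ u - castQ v ∈ W
      iseqv :=
        { refl := fun u => by rw [sub_self]; exact W.zero_mem
          symm := fun {u v} huv => by rw [← neg_sub]; exact W.neg_mem huv
          trans := fun {u v x} huv hvx => by
            have := W.add_mem huv hvx
            rwa [sub_add_sub_cancel] at this }
      add' := fun {u v x y} huv hxy => by
        have := W.add_mem huv hxy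
        rw [map_add, map_add]
        rwa [sub_add_sub_comm] at this }
  have h1 : AddCon.ker (phi S) ≤ Cn := by
    rw [← h, AddCon.addConGen_le]
    intro u v huv
    exact Submodule.subset_span ⟨(u, v), huv, rfl⟩
  let V : Submodule ℚ (gens S →₀ ℚ) := Submodule.span ℚ (insert (Finsupp.single t 1) D)
  have hWV : W ≤ V := Submodule.span_mono (Set.subset_insert _ _)
  have htV : Finsupp.single t (1 : ℚ) ∈ V := Submodule.subset_span (Set.mem_insert _ _)
  have h2 : ∀ i : gens S, Finsupp.single i (1 : ℚ) ∈ V := by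
    intro i
    have h3 : castQ (Finsupp.single i (t : ℕ)) - castQ (Finsupp.single t (i : ℕ)) ∈ W := by
      apply h1
      rw [AddCon.ker_rel, phi_single, phi_single, mul_comm]
    rw [castQ_single, castQ_single] at h3
    have h4 : Finsupp.single i ((t : ℕ) : ℚ) ∈ V := by
      have h5 : Finsupp.single t ((i : ℕ) : ℚ) ∈ V := by
        have := V.smul_mem ((i : ℕ) : ℚ) htV
        rwa [Finsupp.smul_single, smul_eq_mul, mul_one] at this
      have := V.add_mem (hWV h3) h5
      rwa [sub_add_cancel] at this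
    have h6 := V.smul_mem (((t : ℕ) : ℚ)⁻¹) h4
    rw [Finsupp.smul_single, smul_eq_mul, inv_mul_cancel₀] at h6
    · exact h6
    · have := gen_pos t
      positivity
  have hV : V = ⊤ := by
    rw [eq_top_iff]
    intro x _
    induction x using Finsupp.induction_linear with
    | zero => exact V.zero_mem
    | add x y hx hy => exact V.add_mem (hx trivial) (hy trivial)
    | single i q =>
      have := V.smul_mem q (h2 i)
      rwa [Finsupp.smul_single, smul_eq_mul, mul_one] at this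
  have hD : D.Finite := hρ.image _
  have hDc : D.ncard ≤ ρ.ncard := Set.ncard_image_le hρ
  have hfin : (insert (Finsupp.single t (1 : ℚ)) D).Finite := hD.insert _
  have h7 : Module.finrank ℚ V ≤ (insert (Finsupp.single t (1 : ℚ)) D).ncard := by
    have := finrank_span_finset_le_card (R := ℚ) hfin.toFinset
    rw [Set.Finite.coe_toFinset] at this
    rw [Set.ncard_eq_toFinset_card _ hfin]
    exact this
  rw [hV, finrank_top, Module.finrank_finsupp_self] at h7
  have h8 := Set.ncard_insert_le (Finsupp.single t (1 : ℚ)) D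
  omega

theorem Rew.isCI [DecidableEq (gens S)] {t : gens S} {c : gens S → ℕ}
    {w : gens S → (gens S →₀ ℕ)} {p : gens S → ℕ} (hR : Rew S t c w p) : IsCI S := by
  have hinj : Set.InjOn (fun i => (Finsupp.single i (c i), w i)) {i | i ≠ t} := by
    intro i hi j hj hij
    rw [Prod.mk.injEq] at hij
    have h1 := congrArg (fun f => f i) hij.1
    simp only [Finsupp.single_eq_same] at h1
    by_contra hne
    rw [Finsupp.single_apply, if_neg (fun h => hne h.symm)] at h1
    have := hR.cpos hi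
    omega
  have hcard : (rels t c w).ncard = Fintype.card (gens S) - 1 := by
    rw [rels, Set.ncard_image_of_injOn hinj]
    have : {i : gens S | i ≠ t} = ((Finset.univ.erase t : Finset (gens S)) : Set (gens S)) := by
      ext i; simp
    rw [this, Set.ncard_coe_finset, Finset.card_erase_of_mem (Finset.mem_univ t),
      Finset.card_univ]
  have hpos : 0 < Fintype.card (gens S) := Fintype.card_pos_iff.2 ⟨t⟩
  have hfin : (rels t c w).Finite := (Set.toFinite _).image _
  refine ⟨rels t c w, hR.presentation, ?_, hfin, ?_⟩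
  · intro ρ' hρ' hP
    have h1 := card_le_of_presentation (hfin.subset hρ'.subset) hP
    have h2 := Set.ncard_lt_ncard hρ' hfin
    omega
  · rw [hcard, ← Nat.card_eq_fintype_card]
    rfl

end rank


/-! ### The case analysis -/

section cases

variable {S : AddSubmonoid ℕ} [Fintype (gens S)] [DecidableEq (gens S)]

theorem mkRew {g : ℕ → ℤ} {a b : ℕ} (D : Data S g a b) {α β : ℕ} (hα : g a = α) (hβ : g b = β)
    (t : gens S) (A : Finset (gens S)) (hA : ∀ i ∈ A, (i : ℕ) ∣ a) (hB : ∀ i ∉ A, (i : ℕ) ∣ b)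
    (w : gens S → (gens S →₀ ℕ)) (p : gens S → ℕ)
    (hw : ∀ i, i ≠ t → phi S (w i) = if i ∈ A then a else b)
    (hm : ∀ i, i ≠ t → psi p (w i) < (if i ∈ A then a / i else b / i) * p i)
    (hc1 : ((Finset.univ.erase t).filter (· ∈ A)).card = α)
    (hc2 : ((Finset.univ.erase t).filter (· ∉ A)).card = β) :
    Rew S t (fun i => if i ∈ A then a / i else b / i) w p := by
  have hc : ∀ i : gens S, (if i ∈ A then a / (i : ℕ) else b / (i : ℕ)) * (i : ℕ) =
      if i ∈ A then a else b := by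
    intro i
    split_ifs with h
    · exact Nat.div_mul_cancel (hA i h)
    · exact Nat.div_mul_cancel (hB i h)
  refine ⟨fun i hi => ?_, hm, ?_⟩
  · rw [hc, hw i hi]
  · rw [D.KK_eq hα hβ]
    simp only [hc]
    have : ∀ i : gens S, (1 - X ^ (if i ∈ A then a else b) : ℤ⟦X⟧) =
        if i ∈ A then 1 - X ^ a else 1 - X ^ b := by
      intro i; split_ifs <;> rfl
    simp only [this]
    rw [Finset.prod_ite, Finset.prod_const, Finset.prod_const, hc1, hc2]

theorem single_mem_Zs {a : ℕ} {i : gens S} (h : (i : ℕ) ∣ a) :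
    Finsupp.single i (a / (i : ℕ)) ∈ Zs S a := by
  change phi S _ = a
  rw [phi_single, Nat.div_mul_cancel h]

theorem card_le_Zs {a : ℕ} (ha : 0 < a) (hS : ((S : Set ℕ)ᶜ).Finite) :
    (Finset.univ.filter fun i : gens S => (i : ℕ) ∣ a).card ≤ (Zs S a).ncard := by
  have hinj : Set.InjOn (fun i : gens S => (Finsupp.single i (a / (i : ℕ)) : gens S →₀ ℕ))
      {i : gens S | (i : ℕ) ∣ a} := by
    intro i hi j hj hij
    have h1 := DFunLike.congr_fun hij i
    by_contra hne
    rw [Finsupp.single_eq_same, Finsupp.single_apply, if_neg (fun h => hne h.symm)] at h1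
    have := Nat.div_pos (Nat.le_of_dvd ha hi) (gen_pos i)
    omega
  have h2 : ((fun i : gens S => (Finsupp.single i (a / (i : ℕ)) : gens S →₀ ℕ)) ''
      {i : gens S | (i : ℕ) ∣ a}).ncard = (Finset.univ.filter fun i : gens S => (i : ℕ) ∣ a).card := by
    rw [Set.ncard_image_of_injOn hinj, ← Set.ncard_coe_finset]
    congr 1
    ext i
    simp
  rw [← h2]
  refine Set.ncard_le_ncard ?_ (Zs_finite hS a)
  rintro _ ⟨i, hi, rfl⟩
  exact single_mem_Zs hi

theorem Data.case2 {g : ℕ → ℤ} {a b : ℕ} (D : Data S g a b) (hS : ((S : Set ℕ)ᶜ).Finite)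
    {α β : ℕ} (hα : g a = α) (hβ : g b = β)
    (hza : (Zs S a).ncard = α + 1)
    (hA : (Finset.univ.filter fun i : gens S => (i : ℕ) ∣ a).card = α)
    (hdisj : ∀ i : gens S, ¬ ((i : ℕ) ∣ a ∧ (i : ℕ) ∣ b)) : IsCI S := by
  have ha := D.pos
  have hb := D.symm.pos
  have hdvd := D.dvd hS hα hβ
  have hcard := D.card hS hα hβ
  set A := Finset.univ.filter fun i : gens S => (i : ℕ) ∣ a with hAd
  have hAm : ∀ i, i ∈ A ↔ (i : ℕ) ∣ a := fun i => by simp [hAd]
  have hBm : ∀ i, i ∉ A → (i : ℕ) ∣ b := fun i hi =>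
    (hdvd i).resolve_left (fun h => hi ((hAm i).2 h))
  obtain ⟨z, hz, hz'⟩ : ∃ z ∈ Zs S a, ∀ i ∈ A, z ≠ Finsupp.single i (a / (i : ℕ)) := by
    by_contra hcon
    push Not at hcon
    have hsub : (Zs_finite hS a).toFinset ⊆ A.image fun i => Finsupp.single i (a / (i : ℕ)) := by
      intro z hz
      rw [Set.Finite.mem_toFinset] at hz
      obtain ⟨i, hi, h⟩ := hcon z hz
      exact Finset.mem_image.2 ⟨i, hi, h.symm⟩
    have h1 := Finset.card_le_card hsub
    have h2 := Finset.card_image_le (s := A) (f := fun i => Finsupp.single i (a / (i : ℕ)))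
    rw [← Set.ncard_eq_toFinset_card _ (Zs_finite hS a)] at h1
    omega
  have hzA : ∀ i ∈ A, z i = 0 := by
    intro i hi
    by_contra h
    apply hz' i hi
    apply D.disj hS z hz _ (single_mem_Zs ((hAm i).1 hi)) i h
    rw [Finsupp.single_eq_same]
    exact (Nat.div_pos (Nat.le_of_dvd ha ((hAm i).1 hi)) (gen_pos i)).ne'
  have hz0 : z ≠ 0 := by
    rintro rfl
    have : phi S 0 = a := hz
    rw [map_zero] at this
    omega
  obtain ⟨t, ht⟩ : ∃ t, z t ≠ 0 := by
    by_contra hcon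
    push Not at hcon
    exact hz0 (Finsupp.ext hcon)
  have htA : t ∉ A := fun h => ht (hzA t h)
  let p : gens S → ℕ := fun i => if i ∈ A then psi (fun _ => 1) z + 1 else if i = t then 0 else 1
  have hpz : psi p z ≤ psi (fun _ => 1) z := by
    have hexp : ∀ q : gens S → ℕ, psi q z = z.sum fun i c => c * q i := by
      intro q
      simp [psi, Finsupp.linearCombination_apply]
    rw [hexp, hexp]
    apply Finset.sum_le_sum
    intro i hi
    rw [Finsupp.mem_support_iff] at hi
    have hiA : i ∉ A := fun h => hi (hzA i h)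
    apply Nat.mul_le_mul_left
    simp only [p, if_neg hiA]
    split_ifs <;> omega
  apply Rew.isCI (mkRew D hα hβ t A (fun i hi => (hAm i).1 hi) hBm
    (fun i => if i ∈ A then z else Finsupp.single t (b / (t : ℕ))) p ?_ ?_ ?_ ?_)
  · intro i _
    split_ifs
    · exact hz
    · exact single_mem_Zs (hBm t htA)
  · intro i hi
    by_cases h : i ∈ A
    · rw [if_pos h, if_pos h]
      have h1 : 0 < a / (i : ℕ) := Nat.div_pos (Nat.le_of_dvd ha ((hAm i).1 h)) (gen_pos i)
      have h2 : p i = psi (fun _ => 1) z + 1 := by simp only [p, if_pos h]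
      rw [h2]
      nlinarith
    · rw [if_neg h, if_neg h, psi_single]
      have h1 : 0 < b / (i : ℕ) := Nat.div_pos (Nat.le_of_dvd hb (hBm i h)) (gen_pos i)
      have h2 : p t = 0 := by simp only [p, if_neg htA, if_true]
      have h3 : p i = 1 := by simp only [p, if_neg h, if_neg hi]
      rw [h2, h3]
      omega
  · rw [← hA]
    congr 1
    ext i
    rw [Finset.mem_filter, Finset.mem_erase]
    constructor
    · exact fun h => h.2
    · exact fun h => ⟨⟨fun he => htA (he ▸ h), Finset.mem_univ _⟩, h⟩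
  · have h1 := Finset.card_filter_add_card_filter_not (s := Finset.univ.erase t) (· ∈ A)
    have h2 : ((Finset.univ.erase t).filter (· ∈ A)).card = α := by
      rw [← hA]
      congr 1
      ext i
      rw [Finset.mem_filter, Finset.mem_erase]
      constructor
      · exact fun h => h.2
      · exact fun h => ⟨⟨fun he => htA (he ▸ h), Finset.mem_univ _⟩, h⟩
    rw [Finset.card_erase_of_mem (Finset.mem_univ t), Finset.card_univ] at h1
    omega

theorem Data.isCI {g : ℕ → ℤ} {a b : ℕ} (D : Data S g a b) (hS : ((S : Set ℕ)ᶜ).Finite) :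
    IsCI S := by
  have ha := D.pos
  have hb := D.symm.pos
  have hga := D.ga hS
  have hgb := D.symm.ga hS
  have hf1 := (Zs_finite hS a).to_subtype
  have hf2 := (Zs_finite hS b).to_subtype
  have hza : 1 < (Zs S a).ncard := Set.one_lt_ncard_iff_nontrivial.2 D.twoa
  have hzb : 1 < (Zs S b).ncard := Set.one_lt_ncard_iff_nontrivial.2 D.twob
  obtain ⟨α, hα⟩ : ∃ α : ℕ, (Zs S a).ncard = α + 1 := ⟨(Zs S a).ncard - 1, by omega⟩
  obtain ⟨β, hβ⟩ : ∃ β : ℕ, (Zs S b).ncard = β + 1 := ⟨(Zs S b).ncard - 1, by omega⟩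
  rw [hα] at hga
  rw [hβ] at hgb
  push_cast at hga hgb
  rw [add_sub_cancel_right] at hga hgb
  have hcard := D.card hS hga hgb
  have hdvd := D.dvd hS hga hgb
  have hA0 := card_le_Zs (S := S) ha hS
  have hB0 := card_le_Zs (S := S) hb hS
  by_cases hcase : ∃ t : gens S, (t : ℕ) ∣ a ∧ (t : ℕ) ∣ b
  · obtain ⟨t, hta, htb⟩ := hcase
    set A := Finset.univ.filter fun i : gens S => (i : ℕ) ∣ a with hAd
    set B := Finset.univ.filter fun i : gens S => (i : ℕ) ∣ b with hBd
    have hA : A.card ≤ (Zs S a).ncard := by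
      refine le_of_eq_of_le ?_ hA0
      congr 1
    have hB : B.card ≤ (Zs S b).ncard := by
      refine le_of_eq_of_le ?_ hB0
      congr 1
    have hAm : ∀ i, i ∈ A ↔ (i : ℕ) ∣ a := fun i => by simp [hAd]
    have hBm : ∀ i, i ∈ B ↔ (i : ℕ) ∣ b := fun i => by simp [hBd]
    have hBm' : ∀ i, i ∉ A → (i : ℕ) ∣ b := fun i hi =>
      (hdvd i).resolve_left (fun h => hi ((hAm i).2 h))
    have hU : A ∪ B = Finset.univ := by
      ext i
      simp only [Finset.mem_union, Finset.mem_univ, iff_true, hAm, hBm]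
      exact hdvd i
    have hAB := Finset.card_union_add_card_inter A B
    rw [hU, Finset.card_univ] at hAB
    have hI : 0 < (A ∩ B).card := Finset.card_pos.2 ⟨t, Finset.mem_inter.2
      ⟨(hAm t).2 hta, (hBm t).2 htb⟩⟩
    have hAc : A.card = α + 1 := by omega
    have h2 : ((Finset.univ.erase t).filter (· ∈ A)).card = α := by
      have : (Finset.univ.erase t).filter (· ∈ A) = A.erase t := by
        ext i
        simp only [Finset.mem_filter, Finset.mem_erase, Finset.mem_univ, and_true]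
      rw [this, Finset.card_erase_of_mem ((hAm t).2 hta), hAc]
      rfl
    apply Rew.isCI (mkRew D hga hgb t A (fun i hi => (hAm i).1 hi) hBm'
      (fun i => if i ∈ A then Finsupp.single t (a / (t : ℕ)) else Finsupp.single t (b / (t : ℕ)))
      (fun i => if i = t then 0 else 1) ?_ ?_ h2 ?_)
    · intro i _
      split_ifs
      · exact single_mem_Zs hta
      · exact single_mem_Zs htb
    · intro i hi
      rw [if_neg hi]
      by_cases h : i ∈ A
      · rw [if_pos h, if_pos h, psi_single, if_pos rfl]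
        have h1 : 0 < a / (i : ℕ) := Nat.div_pos (Nat.le_of_dvd ha ((hAm i).1 h)) (gen_pos i)
        omega
      · rw [if_neg h, if_neg h, psi_single, if_pos rfl]
        have h1 : 0 < b / (i : ℕ) := Nat.div_pos (Nat.le_of_dvd hb (hBm' i h)) (gen_pos i)
        omega
    · have h1 := Finset.card_filter_add_card_filter_not (s := Finset.univ.erase t) (· ∈ A)
      rw [Finset.card_erase_of_mem (Finset.mem_univ t), Finset.card_univ] at h1
      omega
  · push Not at hcase
    set A := Finset.univ.filter fun i : gens S => (i : ℕ) ∣ a with hAd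
    set B := Finset.univ.filter fun i : gens S => (i : ℕ) ∣ b with hBd
    have hA : A.card ≤ (Zs S a).ncard := by
      refine le_of_eq_of_le ?_ hA0
      congr 1
    have hB : B.card ≤ (Zs S b).ncard := by
      refine le_of_eq_of_le ?_ hB0
      congr 1
    have hAB : A.card + B.card = Fintype.card (gens S) := by
      rw [← Finset.card_univ, ← Finset.card_union_of_disjoint]
      · congr 1
        ext i
        simp only [hAd, hBd, Finset.mem_union, Finset.mem_filter, Finset.mem_univ, true_and,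
          iff_true]
        exact hdvd i
      · rw [Finset.disjoint_left]
        intro i hi hi'
        simp only [hAd, hBd, Finset.mem_filter, Finset.mem_univ, true_and] at hi hi'
        exact hcase i hi hi'
    by_cases hAα : A.card = α
    · exact D.case2 hS hga hgb hα hAα (fun i h => hcase i h.1 h.2)
    · have hBβ : B.card = β := by omega
      exact D.symm.case2 hS hgb hga hβ (by rw [← hBβ]) (fun i h => hcase i h.2 h.1)

end cases

/-- **Main theorem.** If `E(S)` consists of two elements which are incomparable for `≤_S`, then the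
numerical semigroup `S` is a complete intersection. -/
theorem result (S : AddSubmonoid ℕ) (hS : ((S : Set ℕ)ᶜ).Finite) (ε : ℕ → ℤ)
    (hε : IsExponentSeq S ε) (a b : ℕ) (hab : a ≠ b) (hE : ESet S ε = {a, b})
    (h1 : ¬ leS S a b) (h2 : ¬ leS S b a) : IsCI S := by
  classical
  have := (gens_finite hS).to_subtype
  have := Fintype.ofFinite (gens S)
  exact (data_of hS hε hab hE h1 h2).isCI hS

end Pool.Agent.Results.MP_a0aa5b_al.TwoIncomparable
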